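import Mathlib
import Pool.Agent.Helper35.AG.PartE
import Pool.Agent.Helper88.CG.Grow
import Pool.Agent.Helper26.CG.Marg
import Pool.Agent.Helper16.CG.Comp
import Pool.Agent.Helper25.CG.Ext

/-!
# Component growth: the two items for the list of equivalent statements
-/

set_option autoImplicit false
open MeasureTheory Filter Topology Helper35.AG Helper17.FU Helper17.FUGroup
open scoped ENNReal

open Helper91.TTT (GG)

namespace Pool.Agent.Helper97.CG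

variable {s2 s3 t : Equiv.Perm ℚ}

/-- the measure of an extreme trace other than the regular one is singular -/
theorem singular_of_extreme (h2 : ∀ x : ℚ, s2 x = 2 * x) (h3 : ∀ x : ℚ, s3 x = 3 * x)
    (ht : ∀ x : ℚ, t x = x + 1) {τ : GG s2 s3 t} (hτ : (τ : Equiv.Perm ℚ) = t)
    {φ : GG s2 s3 t → ℂ} (hφ : φ ∈ Set.extremePoints ℝ (TR (GG s2 s3 t)))
    (hΔ : φ ≠ Set.indicator ({1} : Set (GG s2 s3 t)) (fun _ => (1 : ℂ)))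
    {μ : Measure Tor} [IsProbabilityMeasure μ]
    (hμ : ∀ n : ℤ, ∫ x, (fourier n x : ℂ) ∂μ = φ (τ ^ n)) :
    Measure.MutuallySingular μ volume := by
  have hi := inv_of_trace h2 h3 ht hτ hφ.1 hμ
  obtain ⟨a, σ, ha1, hσf, hdec, hσ⟩ := Pool.Agent.Helper88.AG.decomp μ hi.two.map_eq
  by_cases ha : a = 0
  · rw [hdec, ha, zero_smul, zero_add]
    exact hσ
  · exfalso
    have hat : a ≠ ⊤ := ne_top_of_le_ne_top ENNReal.one_ne_top ha1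
    have hpos : 0 < a.toReal := ENNReal.toReal_pos ha hat
    refine not_le_of_extreme h2 h3 ht hτ hφ hΔ hμ hpos ?_
    rw [ENNReal.ofReal_toReal hat]
    conv_rhs => rw [hdec]
    exact Measure.le_add_right le_rfl

/-- the measure of a function on the group is diffuse -/
def Diffuse (τ : GG s2 s3 t) (ψ : GG s2 s3 t → ℂ) : Prop :=
  ∀ ν : Measure Tor, IsProbabilityMeasure ν → (∀ n : ℤ, ∫ x, (fourier n x : ℂ) ∂ν = ψ (τ ^ n)) →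
    ∀ x, ν {x} = 0

theorem one_to_seven (h2 : ∀ x : ℚ, s2 x = 2 * x) (h3 : ∀ x : ℚ, s3 x = 3 * x)
    (ht : ∀ x : ℚ, t x = x + 1) {τ : GG s2 s3 t} (hτ : (τ : Equiv.Perm ℚ) = t)
    {φ : GG s2 s3 t → ℂ} (hφ : φ ∈ TR (GG s2 s3 t))
    (h0 : φ = Set.indicator ({1} : Set (GG s2 s3 t)) (fun _ => (1 : ℂ))) :
    ∃ ψ ∈ TR (GG s2 s3 t), ∃ χ' ∈ TR (GG s2 s3 t), ∃ a : ℝ, 0 < a ∧ a ≤ 1 ∧ Diffuse τ ψ ∧
      φ * ψ = a • φ + (1 - a) • χ' := by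
  refine ⟨φ, hφ, φ, hφ, 1, one_pos, le_rfl, ?_, ?_⟩
  · intro ν hνp hν x
    have h1 : ν = volume := (eq_reg_iff h2 h3 ht hτ hφ hν).1 h0
    rw [h1]
    exact Helper40.AG.volume_singleton x
  · rw [sub_self, zero_smul, add_zero, one_smul, h0]
    funext g
    by_cases hg : g = 1
    · rw [hg]
      simp
    · simp [hg]

theorem seven_to_eight {τ : GG s2 s3 t} {φ : GG s2 s3 t → ℂ} (hφ : φ ∈ TR (GG s2 s3 t))
    {μ : Measure Tor} [IsProbabilityMeasure μ]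
    (hμ : ∀ n : ℤ, ∫ x, (fourier n x : ℂ) ∂μ = φ (τ ^ n))
    (h : ∃ ψ ∈ TR (GG s2 s3 t), ∃ χ' ∈ TR (GG s2 s3 t), ∃ a : ℝ, 0 < a ∧ a ≤ 1 ∧ Diffuse τ ψ ∧
      φ * ψ = a • φ + (1 - a) • χ') :
    ∃ ψ ∈ TR (GG s2 s3 t), ∃ χ ∈ TR (GG s2 s3 t), ∃ χ' ∈ TR (GG s2 s3 t), ∃ a : ℝ,
      0 < a ∧ a ≤ 1 ∧ Diffuse τ ψ ∧ φ * ψ = a • χ + (1 - a) • χ' ∧
      ∃ lam : Measure Tor, IsProbabilityMeasure lam ∧
        (∀ n : ℤ, ∫ x, (fourier n x : ℂ) ∂lam = χ (τ ^ n)) ∧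
        ∃ C : ℝ, ∃ᶠ K in atTop, ent lam K - ent μ K ≤ C := by
  obtain ⟨ψ, hψ, χ', hχ', a, h0, h1, hd, he⟩ := h
  refine ⟨ψ, hψ, φ, hφ, χ', hχ', a, h0, h1, hd, he, μ, inferInstance, hμ, 0,
    Frequently.of_forall fun K => ?_⟩
  rw [sub_self]

theorem eight_to_one (h2 : ∀ x : ℚ, s2 x = 2 * x) (h3 : ∀ x : ℚ, s3 x = 3 * x)
    (ht : ∀ x : ℚ, t x = x + 1) {τ : GG s2 s3 t} (hτ : (τ : Equiv.Perm ℚ) = t)
    {φ : GG s2 s3 t → ℂ} (hφ : φ ∈ Set.extremePoints ℝ (TR (GG s2 s3 t)))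
    {μ : Measure Tor} [IsProbabilityMeasure μ]
    (hμ : ∀ n : ℤ, ∫ x, (fourier n x : ℂ) ∂μ = φ (τ ^ n))
    (h : ∃ ψ ∈ TR (GG s2 s3 t), ∃ χ ∈ TR (GG s2 s3 t), ∃ χ' ∈ TR (GG s2 s3 t), ∃ a : ℝ,
      0 < a ∧ a ≤ 1 ∧ Diffuse τ ψ ∧ φ * ψ = a • χ + (1 - a) • χ' ∧
      ∃ lam : Measure Tor, IsProbabilityMeasure lam ∧
        (∀ n : ℤ, ∫ x, (fourier n x : ℂ) ∂lam = χ (τ ^ n)) ∧
        ∃ C : ℝ, ∃ᶠ K in atTop, ent lam K - ent μ K ≤ C) :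
    φ = Set.indicator ({1} : Set (GG s2 s3 t)) (fun _ => (1 : ℂ)) := by
  by_contra hΔ
  obtain ⟨ψ, hψ, χ, hχ, χ', hχ', a, h0, h1, hd, he, lam, hlp, hl, C, hC⟩ := h
  obtain ⟨ν, hνp, hν, hνi⟩ := exists_measure h2 h3 ht hτ hψ
  have hμi := inv_of_trace h2 h3 ht hτ hφ.1 hμ
  have hli := inv_of_trace h2 h3 ht hτ hχ hl
  have hs := singular_of_extreme h2 h3 ht hτ hφ hΔ hμ
  have hle : lam ≤ (ENNReal.ofReal a)⁻¹ • conv μ ν :=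
    Helper16.CG.le_of_comp hχ' h0 h1 he hμ hν hl
  have hc : (ENNReal.ofReal a)⁻¹ ≠ ⊤ := by
    rw [Ne, ENNReal.inv_eq_top, ENNReal.ofReal_eq_zero, not_le]
    exact h0
  have ht' := Pool.Agent.Helper88.CG.comp_growth_of hμi hs (hd ν hνp hν)
    (Helper26.CG.marg hμi hνi hli
      (fun μ' c hp hi hc' hle' => Helper25.CG.ext_of_extreme h2 h3 ht hτ hφ hμ μ' c hp hi hc' hle')
      hc hle)
  obtain ⟨K, hK1, hK2⟩ := (hC.and_eventually (ht'.eventually_gt_atTop C)).exists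
  linarith

end Pool.Agent.Helper97.CG
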